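import Mathlib
import Pool.Agent.R352.NI.Int

set_option autoImplicit false

/-!
# A logarithmic integral and odd zeta values

For every `n ≥ 1` (and for `n = 0`) the integral
`I_n = ∫_0^1 log^(n+1)(1-x) log^n(1+x) / (1+x) dx`
converges absolutely and is a polynomial with rational coefficients in `π²`, `log 2` and the odd
zeta values `ζ(3), ζ(5), ζ(7), …`.

Proof: with `u = (1 + x) / 2`, `a = log (2 (1 - u))`, `b = log (2 u)` one has
`I_n = ∫_(1/2)^1 a^(n+1) b^n du / u`, and integration by parts together with `u ↦ 1 - u` shows that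
`2 I_n = ∫_0^1 (a^(n+1) - log^(n+1) 2) b^n du / u + log^(2n+2)(2) / (n+1)`. The last integral is a
combination of Nielsen's integrals `∫_0^1 log^i(1-u) log^j(u) du / u`, `i ≥ 1`, with coefficients in
`ℚ[log 2]`, which are polynomials in `ζ(2), ζ(3), ζ(4), …` (derivatives of the beta function).
-/

namespace Pool.Agent.Results.MP_cd3f56_nt.LogIntegral

open MeasureTheory

/-- the zeta value `ζ(k) = ∑ 1 / n^k` -/
noncomputable def zeta (k : ℕ) : ℝ := ∑' n : ℕ, 1 / ((n : ℝ) + 1) ^ k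

/-- the integrand -/
noncomputable def integrand (n : ℕ) (x : ℝ) : ℝ :=
  Real.log (1 - x) ^ (n + 1) * Real.log (1 + x) ^ n / (1 + x)

/-- the algebra `ℚ[π², log 2, ζ(3), ζ(5), ζ(7), …]` -/
noncomputable def zetaAlgebra : Subalgebra ℚ ℝ :=
  Algebra.adjoin ℚ ({Real.pi ^ 2, Real.log 2} ∪ {z | ∃ k : ℕ, 3 ≤ k ∧ Odd k ∧ z = zeta k})

theorem zeta_even (k : ℕ) (hk : k ≠ 0) : ∃ q : ℚ, zeta (2 * k) = q * (Real.pi ^ 2) ^ k := by
  have h1 := hasSum_zeta_nat hk
  have h2 : zeta (2 * k) = (-1 : ℝ) ^ (k + 1) * (2 : ℝ) ^ (2 * k - 1) * Real.pi ^ (2 * k) * bernoulli (2 * k) / (2 * k).factorial := by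
    rw [← h1.tsum_eq, zeta]
    have hs : Summable (fun n : ℕ => 1 / (n : ℝ) ^ (2 * k)) := h1.summable
    rw [← hs.sum_add_tsum_nat_add 1]
    simp only [Finset.sum_range_succ, Finset.sum_range_zero, zero_add]
    have h0 : (0 : ℝ) ^ (2 * k) = 0 := zero_pow (by omega)
    rw [Nat.cast_zero, h0, div_zero, zero_add]
    refine tsum_congr fun n => ?_
    push_cast
    rfl
  refine ⟨(-1) ^ (k + 1) * 2 ^ (2 * k - 1) * bernoulli (2 * k) / (2 * k).factorial, ?_⟩
  rw [h2, ← pow_mul]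
  push_cast
  ring

theorem zeta_mem (k : ℕ) (hk : 2 ≤ k) : zeta k ∈ zetaAlgebra := by
  rcases Nat.even_or_odd' k with ⟨j, rfl | rfl⟩
  · obtain ⟨q, hq⟩ := zeta_even j (by omega)
    rw [hq]
    exact zetaAlgebra.mul_mem (zetaAlgebra.algebraMap_mem q)
      (zetaAlgebra.pow_mem (Algebra.subset_adjoin (Or.inl (Or.inl rfl))) _)
  · exact Algebra.subset_adjoin (Or.inr ⟨2 * j + 1, by omega, ⟨j, rfl⟩, rfl⟩)

theorem integrable (n : ℕ) : IntervalIntegrable (integrand n) volume 0 1 := by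
  have h1 := (Pool.Agent.R352.NI.fa_int (n + 1) 0).mul_continuousOn
    (g := fun x : ℝ => Real.log (1 + x) ^ n / (1 + x)) ?_
  · refine h1.congr (fun x _ => ?_)
    rw [Pool.Agent.R352.NI.fa, integrand]
    ring
  · rw [Set.uIcc_of_le zero_le_one]
    refine ContinuousOn.div (ContinuousOn.pow (ContinuousOn.log (by fun_prop) ?_) _) (by fun_prop) ?_
    · intro x hx
      exact (by linarith [hx.1] : (0 : ℝ) < 1 + x).ne'
    · intro x hx
      exact (by linarith [hx.1] : (0 : ℝ) < 1 + x).ne'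

theorem result : ∀ n : ℕ, IntervalIntegrable (integrand n) volume 0 1 ∧
    ∫ x in (0 : ℝ)..1, integrand n x ∈ zetaAlgebra := by
  intro n
  exact ⟨integrable n, Pool.Agent.R352.NI.II_mem zetaAlgebra zeta_mem
    (Algebra.subset_adjoin (Or.inl (Or.inr rfl))) n⟩

end Pool.Agent.Results.MP_cd3f56_nt.LogIntegral
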